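import Pool.Agent.H61.ConvCyc

set_option autoImplicit false

namespace Pool.Agent.Results.MP_0f7a95_an.NotDense

/-- The convex-cyclic vectors of `T`: the convex hull of the orbit is norm dense. -/
def convexCyclicVectors {X : Type} [NormedAddCommGroup X] [NormedSpace ℂ X] (T : X →L[ℂ] X) :
    Set X :=
  {x | Dense (convexHull ℝ (Set.range fun n : ℕ => (T ^ n) x))}

/-- A convex-cyclic operator on a complex Hilbert space whose convex-cyclic vectors
are not dense. -/
theorem result :
    ∃ (X : Type) (_ : NormedAddCommGroup X) (_ : InnerProductSpace ℂ X) (_ : CompleteSpace X)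
      (T : X →L[ℂ] X), (convexCyclicVectors T).Nonempty ∧ ¬ Dense (convexCyclicVectors T) :=
  ⟨Pool.Agent.H61.L2.H ℕ, inferInstance, inferInstance, inferInstance,
    Pool.Agent.H61.ConvCyc.T, Pool.Agent.H61.ConvCyc.main⟩

end Pool.Agent.Results.MP_0f7a95_an.NotDense
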